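import Pool.Agent.helper17.MLG.Spec

/-! Row mlg:CLO: the closed form. -/

set_option autoImplicit false
set_option linter.unusedSectionVars false

namespace Pool.Agent.MLG

open MeasureTheory Set Filter Topology Module
open scoped ENNReal ContDiff

theorem CLO_two : (2 : WithTop ℕ∞) ≤ ((⊤ : ℕ∞) : WithTop ℕ∞) := by
  have h : ((2 : ℕ∞) : WithTop ℕ∞) ≤ ((⊤ : ℕ∞) : WithTop ℕ∞) := WithTop.coe_le_coe.mpr le_top
  exact h

theorem CLO (hFRA : FRA_stmt) (hGRR : GRR_stmt) : CLO_stmt := by
  classical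
  intro V _ _ _ _ _ _ hV h hh hsupp hne hW
  obtain ⟨x₀, hx₀⟩ := hne
  obtain ⟨W, hW1, hW⟩ := hW
  have htop := top hV
  obtain ⟨-, -, -, -, -, hzero, -, -⟩ := hGRR V hV
  set ν : V := ‖gr h x₀‖⁻¹ • gr h x₀ with hν
  have hn0 : 0 < ‖gr h x₀‖ := norm_pos_iff.mpr hx₀
  have hx₀ν : gr h x₀ = ‖gr h x₀‖ • ν := by
    rw [hν, smul_smul, mul_inv_cancel₀ hn0.ne', one_smul]
  set β : V → V →L[ℝ] ℝ := fun x => if gr h x = ‖gr h x‖ • ν then fderiv ℝ h x else 0 with hβ
  have hloc : ∀ p : V, β =ᶠ[𝓝 p] fderiv ℝ h ∨ β =ᶠ[𝓝 p] fun _ => 0 := by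
    intro p
    obtain ⟨νp, hνp⟩ := hW p
    have hN : ∀ᶠ y in 𝓝 p, y * p⁻¹ ∈ W := by
      have hc : ContinuousAt (fun y : V => y * p⁻¹) p := (continuous_mul_const p⁻¹).continuousAt
      refine hc.preimage_mem_nhds ?_
      rw [mul_inv_cancel]
      exact hW1
    have hy : ∀ᶠ y in 𝓝 p, gr h y = ‖gr h y‖ • νp := by
      filter_upwards [hN] with y hy
      have := hνp _ hy
      rwa [inv_mul_cancel_right] at this
    by_cases hc : νp = ν
    · left
      filter_upwards [hy] with y hy
      simp only [hβ]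
      rw [if_pos (by rw [← hc]; exact hy)]
    · right
      filter_upwards [hy] with y hy
      simp only [hβ]
      split_ifs with h1
      · have h2 : ‖gr h y‖ • (νp - ν) = 0 := by
          rw [smul_sub, ← hy, ← h1, sub_self]
        rcases smul_eq_zero.mp h2 with h3 | h3
        · exact (hzero h y).mp (norm_eq_zero.mp h3)
        · exact absurd (sub_eq_zero.mp h3) hc
      · rfl
  have hC1 : ContDiff ℝ 1 (fderiv ℝ h) := hh.fderiv_right (le_trans (le_of_eq one_add_one_eq_two) CLO_two)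
  refine ⟨β, ν, x₀, ?_, ?_, ?_, ?_, ?_⟩
  · rw [contDiff_iff_contDiffAt]
    intro p
    rcases hloc p with h1 | h1
    · exact hC1.contDiffAt.congr_of_eventuallyEq h1
    · exact contDiffAt_const.congr_of_eventuallyEq h1
  · refine (hsupp.fderiv ℝ).mono ?_
    intro x hx
    rw [Function.mem_support] at hx ⊢
    intro h0
    apply hx
    simp only [hβ]
    split_ifs
    · exact h0
    · rfl
  · intro x u w
    rcases hloc x with h1 | h1
    · rw [h1.fderiv_eq]
      have h2 : IsSymmSndFDerivAt ℝ h x := by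
        refine hh.contDiffAt.isSymmSndFDerivAt ?_
        rw [minSmoothness_of_isRCLikeNormedField]
        exact CLO_two
      exact h2 u w
    · rw [h1.fderiv_eq]
      simp
  · intro x
    simp only [hβ]
    split_ifs with h1
    · rw [← inner_gr, h1, inner_smul_left, real_inner_self_eq_norm_sq]
      simp only [conj_trivial]
      positivity
    · simp
  · simp only [hβ]
    rw [if_pos hx₀ν, ← inner_gr, hx₀ν, inner_smul_left, real_inner_self_eq_norm_sq]
    have hν1 : ‖ν‖ = 1 := by
      rw [hν, norm_smul, norm_inv, norm_norm, inv_mul_cancel₀ hn0.ne']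
    rw [hν1]
    simp only [conj_trivial]
    linarith

end Pool.Agent.MLG
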